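import Pool.Agent.H7.TRI.Stmts

/-!
Board tri (helper7, MP_fd41b2_co), row RCH.
-/

set_option autoImplicit false

open Finset

namespace Pool.TRI

theorem RCH_df {V : Type} [Fintype V] [DecidableEq V] {G : SimpleGraph V} {d : ℕ} {z w : V}
    (hz : (nb G z).card = d) (hw : G.Adj z w) : (df G (cn G z) w : ℤ) = et G d z w := by
  have h1 : cn G z ∩ cn G w = insert z (insert w (nb G z ∩ nb G w)) := by
    ext u
    simp only [mem_inter, mem_insert, mem_cn, mem_nb]
    constructor
    · rintro ⟨h | h, h' | h'⟩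
      · exact Or.inl h
      · exact Or.inl h
      · exact Or.inr (Or.inl h')
      · exact Or.inr (Or.inr ⟨h, h'⟩)
    · rintro (h | h | ⟨h, h'⟩)
      · exact ⟨Or.inl h, Or.inr (h ▸ hw.symm)⟩
      · exact ⟨Or.inr (h ▸ hw), Or.inl h⟩
      · exact ⟨Or.inr h, Or.inr h'⟩
  have h2 : (cn G z ∩ cn G w).card = cd G z w + 2 := by
    rw [h1, card_insert_of_notMem, card_insert_of_notMem]
    · rfl
    · intro h
      exact self_notMem_nb w (mem_inter.1 h).2
    · rw [mem_insert]
      rintro (h | h)
      · exact hw.ne h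
      · exact self_notMem_nb z (mem_inter.1 h).1
  have h3 : (cn G z \ cn G w).card + (cn G z ∩ cn G w).card = (cn G z).card :=
    card_sdiff_add_card_inter _ _
  rw [h2, card_cn, hz] at h3
  unfold df et
  omega

theorem RCH_thm (hETB : ETBStmt) (hEXF : EXFStmt) : RCHStmt := by
  intro V _ _ G d m H C hC
  obtain ⟨v, hv, hvC⟩ := mem_RC.1 hC
  have hd : 18 ≤ d := H.d18
  have hnb : (nb G v).card = d := by
    by_contra hne
    have hlt : (nb G v).card < d := lt_of_le_of_ne (H.deg v) hne
    have h1 := hEXF V G d v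
    have h2 : 0 ≤ ∑ w ∈ nb G v, (et G d v w - 1) := by
      apply sum_nonneg
      intro w hw
      have h3 := (hETB V G d m H v w (mem_nb.1 hw)).1
      have h4 : ((nb G v).card : ℤ) < d := by exact_mod_cast hlt
      omega
    have h5 : 0 ≤ ((d : ℤ) - ((nb G v).card : ℤ)) * ((d : ℤ) - 2) := by
      apply mul_nonneg
      · have h4 : ((nb G v).card : ℤ) < d := by exact_mod_cast hlt
        omega
      · have : (18 : ℤ) ≤ d := by exact_mod_cast hd
        omega
    omega
  have hCc : C.card = d + 1 := by rw [← hvC, card_cn, hnb]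
  have hzero : ∀ w ∈ C, (df G C w = 0 ↔ cn G w = C) := by
    intro w _
    unfold df
    rw [card_eq_zero, sdiff_eq_empty_iff_subset]
    constructor
    · intro h
      refine (eq_of_subset_of_card_le h ?_).symm
      rw [card_cn, hCc]
      have := H.deg w
      omega
    · intro h
      rw [h]
  have hXX : ∀ w ∈ C, (w ∈ XX G C ↔ 1 ≤ df G C w) := by
    intro w hw
    rw [mem_XX, Nat.one_le_iff_ne_zero, Ne, Ne, hzero w hw]
    exact ⟨fun h => h.2, fun h => ⟨hw, h⟩⟩
  have hsum : ∑ w ∈ C, df G C w = ∑ w ∈ XX G C, df G C w := by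
    symm
    apply sum_subset
    · intro w hw
      exact (mem_XX.1 hw).1
    · intro w hw hnw
      rw [hXX w hw] at hnw
      omega
  have hcards : (SS G C).card + (XX G C).card = d + 1 := by
    rw [← hCc, ← card_union_of_disjoint]
    · congr 1
      ext w
      rw [mem_union, mem_SS, mem_XX]
      by_cases h : cn G w = C
      · simp [h]
      · simp [h]
    · rw [disjoint_left]
      intro w h1 h2
      exact (mem_XX.1 h2).2 (mem_SS.1 h1).2
  have hex : ∀ z, cn G z = C → (nb G z).card = d ∧
      ex G d z = ∑ w ∈ XX G C, (df G C w : ℤ) - (d : ℤ) := by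
    intro z hz
    have h1 : (nb G z).card = d := by
      have := card_cn (G := G) z
      rw [hz, hCc] at this
      omega
    refine ⟨h1, ?_⟩
    have h2 : ∑ w ∈ C, df G C w = ∑ w ∈ nb G z, df G C w := by
      have h3 : C = insert z (nb G z) := hz.symm
      have h4 : df G C z = 0 := (hzero z (by rw [← hz]; exact self_mem_cn z)).2 hz
      calc ∑ w ∈ C, df G C w = ∑ w ∈ insert z (nb G z), df G C w := by rw [← h3]
        _ = df G C z + ∑ w ∈ nb G z, df G C w := sum_insert (self_notMem_nb z)
        _ = _ := by rw [h4, zero_add]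
    have h5 : ∑ w ∈ XX G C, (df G C w : ℤ) = ∑ w ∈ nb G z, (df G C w : ℤ) := by
      have h6 : ∑ w ∈ XX G C, df G C w = ∑ w ∈ nb G z, df G C w := by rw [← hsum, h2]
      exact_mod_cast h6
    rw [hEXF V G d z, h1, h5, sub_self, zero_mul, add_zero, sum_sub_distrib, sum_const, h1]
    have h7 : ∑ w ∈ nb G z, et G d z w = ∑ w ∈ nb G z, (df G C w : ℤ) := by
      apply sum_congr rfl
      intro w hw
      rw [← RCH_df h1 (mem_nb.1 hw), hz]
    rw [h7]
    simp
  have hlt : ∑ w ∈ XX G C, df G C w < d := by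
    have h1 := (hex v hvC).2
    have h2 : ((∑ w ∈ XX G C, df G C w : ℕ) : ℤ) < d := by
      push_cast
      omega
    exact_mod_cast h2
  have hone : ∀ w ∈ XX G C, 1 ≤ df G C w := fun w hw => (hXX w (mem_XX.1 hw).1).1 hw
  have hcardle : (XX G C).card ≤ ∑ w ∈ XX G C, df G C w := by
    rw [card_eq_sum_ones]
    exact sum_le_sum hone
  refine ⟨hCc, hcards, by omega, ?_, ?_, hXX, hlt, ?_⟩
  · by_contra hcon
    have hle : (XX G C).card ≤ 1 := by omega
    have hcl := H.clq C (by
      intro u hu w hw huw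
      by_cases h1 : cn G u = C
      · have h2 : w ∈ cn G u := by rw [h1]; exact hw
        rcases mem_cn.1 h2 with h3 | h3
        · exact absurd h3.symm huw
        · exact h3
      · by_cases h2 : cn G w = C
        · have h3 : u ∈ cn G w := by rw [h2]; exact hu
          rcases mem_cn.1 h3 with h4 | h4
          · exact absurd h4 huw
          · exact h4.symm
        · exact absurd (card_le_one.1 hle u (mem_XX.2 ⟨hu, h1⟩) w (mem_XX.2 ⟨hw, h2⟩)) huw)
    have := H.m1
    omega
  · intro z hz
    have h1 := hex z (mem_SS.1 hz).2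
    have h2 := hex v hvC
    refine ⟨h1.1, ?_, h1.2⟩
    rw [h1.2, ← h2.2]
    exact hv
  · intro w hw
    have h1 : df G C w + ∑ u ∈ (XX G C).erase w, df G C u = ∑ u ∈ XX G C, df G C u :=
      add_sum_erase _ _ hw
    have h2 : ((XX G C).erase w).card ≤ ∑ u ∈ (XX G C).erase w, df G C u := by
      rw [card_eq_sum_ones]
      exact sum_le_sum fun u hu => hone u (mem_of_mem_erase hu)
    rw [card_erase_of_mem hw] at h2
    have h3 : 1 ≤ (XX G C).card := card_pos.2 ⟨w, hw⟩
    omega

end Pool.TRI
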